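import Pool.Agent.Q27.TNS.Tree

/-!
# Admissible kernels, and the main theorem
-/

set_option autoImplicit false

namespace Q27.TNS

open Matrix
open Pool.Agent.Y110.FJ (ClosedE)
open Pool.Agent.Y462.SS (Closed)
open Q30.FJ (ClosedOver ClosedF)
open Q182.Cyl (ClosedA)
open Q181.MCL (VSol UW)
open Q27.HKN (SLF Ser Ker HKer)
open Q27.TRC (tr chars)

variable {C D : ∀ (G : Type) [Group G], Prop}

/-- The smallest set of subgroups of the normal subgroup `N` of `G`, closed under intersections,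
which contains the kernels of (i) quotients which are virtually solvable or satisfy `SLF`, (ii) the
representations over algebraically closed fields of characteristic zero of degrees in which `N` has
only finitely many characters, (iii) the restrictions of homomorphisms of `G` to groups in `C`. -/
inductive Adm (C : ∀ (G : Type) [Group G], Prop) {G : Type} [Group G] (N : Subgroup G) :
    Subgroup N → Prop
  | quo (K : Subgroup N) [K.Normal] : (VSol (N ⧸ K) ∨ SLF (N ⧸ K)) → Adm C N K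
  | rep (n : ℕ) (F : Type) [Field F] [IsAlgClosed F] [CharZero F] (ρ : N →* GL (Fin n) F) :
      (chars N n F).Finite → Adm C N ρ.ker
  | glob (M : Subgroup G) [M.Normal] : C (G ⧸ M) → Adm C N (M.subgroupOf N)
  | inf (K K' : Subgroup N) : Adm C N K → Adm C N K' → Adm C N (K ⊓ K')

theorem Adm.top {G : Type} [Group G] (N : Subgroup G) : Adm C N ⊤ := by
  refine Adm.quo ⊤ (Or.inl ⟨⊤, ?_, ?_⟩)
  · infer_instance
  · have h1 : Subsingleton (N ⧸ (⊤ : Subgroup N)) := QuotientGroup.subsingleton_quotient_top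
    infer_instance

theorem Adm.fin {G : Type} [Group G] {N : Subgroup G} {ι : Type} {F : Set ι} (hF : F.Finite)
    (Q : ι → Subgroup N → Prop) (hQ : ∀ i K K', K' ≤ K → Q i K → Q i K')
    (h : ∀ i ∈ F, ∃ K, Adm C N K ∧ Q i K) : ∃ K, Adm C N K ∧ ∀ i ∈ F, Q i K := by
  induction F, hF using Set.Finite.induction_on with
  | empty => exact ⟨⊤, Adm.top N, fun i hi => absurd hi (Set.notMem_empty i)⟩
  | @insert a s _ _ ih =>
    obtain ⟨K, hK, h1⟩ := ih fun i hi => h i (Set.mem_insert_of_mem _ hi)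
    obtain ⟨K', hK', h2⟩ := h a (Set.mem_insert _ _)
    refine ⟨K ⊓ K', Adm.inf _ _ hK hK', ?_⟩
    intro i hi
    rcases Set.mem_insert_iff.1 hi with rfl | hi
    · exact hQ _ _ _ inf_le_right h2
    · exact hQ _ _ _ inf_le_left (h1 i hi)

section

variable {G : Type} [Group G] (N : Subgroup G) [N.Normal]

omit [N.Normal] in
theorem gen_top (g : G) : N.subgroupOf (N ⊔ Subgroup.zpowers g) ⊔ Subgroup.zpowers
    (⟨g, (le_sup_right : _ ≤ N ⊔ Subgroup.zpowers g) (Subgroup.mem_zpowers g)⟩ :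
      ↥(N ⊔ Subgroup.zpowers g)) = ⊤ := by
  apply Subgroup.map_injective (Subgroup.subtype_injective (N ⊔ Subgroup.zpowers g))
  rw [Subgroup.map_sup, Subgroup.map_subgroupOf_eq_of_le le_sup_left, MonoidHom.map_zpowers,
    ← MonoidHom.range_eq_map, Subgroup.range_subtype]
  rfl

theorem det_of_adm (hC : ClosedE C) (hsol : ∀ (G : Type) [Group G], Group.IsSolvable G → C G)
    (hQQ : ∀ m : ℕ, C (GL (Fin m) ℚ)) {K : Subgroup N} (h : Adm C N K) (g : G)
    (hg : g = 1 ∨ ∀ n : ℕ, 0 < n → g ^ n ∉ N) :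
    ∃ (P : Type) (_ : Group P) (π : ↥(N ⊔ Subgroup.zpowers g) →* P), C P ∧
      ∀ (x : ↥(N ⊔ Subgroup.zpowers g)) (hx : (x : G) ∈ N), π x = 1 → (⟨x, hx⟩ : N) ∈ K := by
  have hgm : g ∈ N ⊔ Subgroup.zpowers g :=
    (le_sup_right : _ ≤ N ⊔ Subgroup.zpowers g) (Subgroup.mem_zpowers g)
  induction h with
  | quo K hQ =>
    have hUW : C (UW (N ⧸ K)) := by
      rcases hQ with h | h
      · exact Q181.MCL.uw_vsol hC hsol _ h
      · exact Q27.HKN.uw_slf hC hsol _ h
    rcases hg with rfl | hinf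
    · have hle : N ⊔ Subgroup.zpowers (1 : G) ≤ N := by
        rw [Subgroup.zpowers_one_eq_bot, sup_bot_eq]
      refine ⟨N ⧸ K, inferInstance, (QuotientGroup.mk' K).comp (Subgroup.inclusion hle), ?_, ?_⟩
      · refine hC.base.of_injective _ _ ((SemidirectProduct.inl :
          (Multiplicative ℤ → N ⧸ K) →* UW (N ⧸ K)).comp (Pi.constMonoidHom _ _)) ?_ hUW
        intro x y hxy
        exact congrFun (SemidirectProduct.inl_injective hxy) 1
      · intro x hx h1
        exact (QuotientGroup.eq_one_iff _).1 h1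
    · obtain ⟨π, hπ⟩ := Q27.HKN.uw_hom (N.subgroupOf (N ⊔ Subgroup.zpowers g)) ⟨g, hgm⟩
        (gen_top N g) (fun n hn h1 => hinf n hn h1) ((QuotientGroup.mk' K).comp
          (Subgroup.subgroupOfEquivOfLe (le_sup_left : N ≤ N ⊔ Subgroup.zpowers g)).toMonoidHom)
      refine ⟨_, inferInstance, π, hUW, ?_⟩
      intro x hx h1
      exact (QuotientGroup.eq_one_iff _).1 (hπ ⟨x, hx⟩ h1)
  | rep n F ρ hfin =>
    have hfin' := Q27.HKN.chars_equiv (Subgroup.subgroupOfEquivOfLe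
      (le_sup_left : N ≤ N ⊔ Subgroup.zpowers g)).symm hfin
    obtain ⟨k, hk0, hkk⟩ := Q27.TRC.orbit_of_finite
      (N.subgroupOf (N ⊔ Subgroup.zpowers g)) hfin' (ρ.comp (Subgroup.subgroupOfEquivOfLe
        (le_sup_left : N ≤ N ⊔ Subgroup.zpowers g)).toMonoidHom) ⟨g, hgm⟩
    obtain ⟨P, _, π, hP, hπ⟩ := Q27.TRC.cyc_main hC hsol hQQ
      (N.subgroupOf (N ⊔ Subgroup.zpowers g)) ⟨g, hgm⟩ (gen_top N g) k hk0
      (fun m hm _ => Nat.cast_ne_zero.2 (by omega)) (ρ.comp (Subgroup.subgroupOfEquivOfLe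
        (le_sup_left : N ≤ N ⊔ Subgroup.zpowers g)).toMonoidHom)
      (Q27.TRC.alg_of_finite hfin' _) hkk
    exact ⟨P, _, π, hP, fun x hx h1 => hπ ⟨x, hx⟩ h1⟩
  | glob M hM =>
    refine ⟨G ⧸ M, inferInstance, (QuotientGroup.mk' M).comp (Subgroup.subtype _), hM, ?_⟩
    intro x hx h1
    show (x : G) ∈ M
    exact (QuotientGroup.eq_one_iff _).1 h1
  | inf K K' _ _ ih ih' =>
    obtain ⟨P, _, π, hP, hπ⟩ := ih
    obtain ⟨P', _, π', hP', hπ'⟩ := ih'
    refine ⟨P × P', inferInstance, π.prod π', hC.base.prod _ _ hP hP', ?_⟩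
    intro x hx h1
    exact ⟨hπ x hx (congrArg Prod.fst h1), hπ' x hx (congrArg Prod.snd h1)⟩

theorem fin_over (hC : Closed C) {V : Type} [Group V] (L : Subgroup V) [L.Normal] (c : V)
    (hc : L ⊔ Subgroup.zpowers c = ⊤) (k : ℕ) (hk : 0 < k) (hck : c ^ k ∈ L) (hL : C L) : C V := by
  refine hC.finiteIndex V L ?_ hL
  have h3 : Finite (V ⧸ L) := by
    have h4 : Function.Surjective (fun i : Fin k => ((c ^ (i : ℕ) : V) : V ⧸ L)) := by
      intro y
      induction y using QuotientGroup.induction_on with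
      | H v =>
        have hv : v ∈ L ⊔ Subgroup.zpowers c := by rw [hc]; trivial
        obtain ⟨l, hl, z, hz, rfl⟩ := (Subgroup.mem_sup_of_normal_left).1 hv
        obtain ⟨n, rfl⟩ := Subgroup.mem_zpowers_iff.1 hz
        have hk' : (0 : ℤ) < k := by exact_mod_cast hk
        have h5 : 0 ≤ n % k := Int.emod_nonneg _ hk'.ne'
        have h6 : n % k < k := Int.emod_lt_of_pos _ hk'
        refine ⟨⟨(n % k).toNat, by omega⟩, ?_⟩
        show ((c ^ (n % k).toNat : V) : V ⧸ L) = ((l * c ^ n : V) : V ⧸ L)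
        have h7 : ((c ^ (k : ℕ) : V) : V ⧸ L) = 1 := (QuotientGroup.eq_one_iff _).2 hck
        have h8 : ((l : V) : V ⧸ L) = 1 := (QuotientGroup.eq_one_iff _).2 hl
        rw [QuotientGroup.mk_mul, h8, one_mul, QuotientGroup.mk_zpow, QuotientGroup.mk_pow,
          ← _root_.zpow_natCast, Int.toNat_of_nonneg h5]
        conv_rhs => rw [← Int.emod_add_mul_ediv n k]
        rw [_root_.zpow_add, _root_.zpow_mul, _root_.zpow_natCast, ← QuotientGroup.mk_pow, h7,
          _root_.one_zpow, mul_one]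
    exact Finite.of_surjective _ h4
  exact Subgroup.finiteIndex_of_finite_quotient

/-- reduction to the elements of infinite order modulo the kernel -/
theorem over_of_inf (hC : ClosedE C) (hD : ClosedOver C D)
    (h : ∀ g : G, (g = 1 ∨ ∀ n : ℕ, 0 < n → g ^ n ∉ N) → C ↥(N ⊔ Subgroup.zpowers g))
    (hQ : D (G ⧸ N)) : D G := by
  refine over_of_cyc hC hD N (fun g => ?_) hQ
  by_cases hinf : ∀ n : ℕ, 0 < n → g ^ n ∉ N
  · exact h g (Or.inr hinf)
  · push Not at hinf
    obtain ⟨k, hk, hgk⟩ := hinf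
    have hN : C N := by
      have h1 := h 1 (Or.inl rfl)
      refine hC.base.of_injective _ _ (Subgroup.inclusion le_sup_left)
        (Subgroup.inclusion_injective _) h1
    refine fin_over hC.base (N.subgroupOf (N ⊔ Subgroup.zpowers g)) _ (gen_top N g) k hk hgk
      (Pool.Agent.Y812.SS.C_equiv hC.base
        (Subgroup.subgroupOfEquivOfLe (le_sup_left : N ≤ N ⊔ Subgroup.zpowers g)) hN)

theorem exists_gen {V : Type} [Group V] (L : Subgroup V) [L.Normal] (c : V)
    (hc : L ⊔ Subgroup.zpowers c = ⊤) (S : Subgroup V) :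
    ∃ c' : S, L.subgroupOf S ⊔ Subgroup.zpowers c' = ⊤ := by
  let f : S →* V ⧸ L := (QuotientGroup.mk' L).comp S.subtype
  have h1 : IsCyclic (V ⧸ L) := by
    refine ⟨⟨(c : V ⧸ L), fun y => ?_⟩⟩
    induction y using QuotientGroup.induction_on with
    | H v =>
      have hv : v ∈ L ⊔ Subgroup.zpowers c := by rw [hc]; trivial
      obtain ⟨l, hl, z, hz, rfl⟩ := (Subgroup.mem_sup_of_normal_left).1 hv
      obtain ⟨n, rfl⟩ := Subgroup.mem_zpowers_iff.1 hz
      refine ⟨n, ?_⟩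
      show (c : V ⧸ L) ^ n = _
      rw [QuotientGroup.mk_mul, (QuotientGroup.eq_one_iff l).2 hl, one_mul]
      rfl
  obtain ⟨⟨_, c', rfl⟩, hc'⟩ := IsCyclic.exists_generator (α := f.range)
  refine ⟨c', ?_⟩
  rw [eq_top_iff]
  intro x _
  obtain ⟨n, hn⟩ := Subgroup.mem_zpowers_iff.1 (hc' ⟨f x, x, rfl⟩)
  have h2 : f c' ^ n = f x := congrArg Subtype.val hn
  have h3 : x * (c' ^ n)⁻¹ ∈ L.subgroupOf S := by
    have h5 : f (x * (c' ^ n)⁻¹) = 1 := by
      rw [map_mul, map_inv, map_zpow, h2, mul_inv_cancel]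
    exact (QuotientGroup.eq_one_iff ((x * (c' ^ n)⁻¹ : S) : V)).1 h5
  have h4 : x = x * (c' ^ n)⁻¹ * c' ^ n := by group
  rw [h4]
  exact mul_mem (Subgroup.mem_sup_left h3) (Subgroup.mem_sup_right (Subgroup.zpow_mem_zpowers _ _))

variable {X : Type} [MulAction G X]

/-- the vertex stabilizers of the extensions of the kernel by cyclic groups -/
theorem stab_cyc (hF : ClosedF C) (hsol : ∀ (G : Type) [Group G], Group.IsSolvable G → C G)
    (v : X) (hv : C (MulAction.stabilizer G v) ∨ Ser (MulAction.stabilizer N v)) (g : G) :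
    C (MulAction.stabilizer ↥(N ⊔ Subgroup.zpowers g) v) := by
  rcases hv with hv | hv
  · refine hF.base.base.of_injective _ _ (MonoidHom.mk' (fun x : MulAction.stabilizer
      ↥(N ⊔ Subgroup.zpowers g) v => (⟨((x : ↥(N ⊔ Subgroup.zpowers g)) : G), x.2⟩ :
        MulAction.stabilizer G v)) (fun x y => rfl)) ?_ hv
    intro x y hxy
    exact Subtype.ext (Subtype.ext (congrArg (fun z : MulAction.stabilizer G v => (z : G)) hxy))
  · obtain ⟨c', hc'⟩ := exists_gen (N.subgroupOf (N ⊔ Subgroup.zpowers g)) _ (gen_top N g)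
      (MulAction.stabilizer ↥(N ⊔ Subgroup.zpowers g) v)
    refine (hv.hker hF hsol).ker _ _ c' hc' ⟨?_⟩
    refine
      { toFun := fun x => ⟨⟨(((x : MulAction.stabilizer ↥(N ⊔ Subgroup.zpowers g) v) :
          ↥(N ⊔ Subgroup.zpowers g)) : G), x.2⟩, (x : MulAction.stabilizer
            ↥(N ⊔ Subgroup.zpowers g) v).2⟩
        invFun := fun y => ⟨⟨⟨((y : N) : G), (le_sup_left : N ≤ N ⊔ Subgroup.zpowers g) y.1.2⟩,
          y.2⟩, y.1.2⟩
        left_inv := fun x => rfl
        right_inv := fun y => rfl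
        map_mul' := fun x y => rfl }

variable {T : SimpleGraph X}

/-- **Trees, part one**: edge stabilizers which meet an admissible kernel trivially -/
theorem main_one (hF : ClosedF C) (hD : ClosedOver C D)
    (hsol : ∀ (G : Type) [Group G], Group.IsSolvable G → C G) (hQQ : ∀ m : ℕ, C (GL (Fin m) ℚ))
    (hT : T.IsTree) (hadj : ∀ (g : G) (v w : X), T.Adj v w → T.Adj (g • v) (g • w))
    (hinv : ∀ (g : G) (v w : X), T.Adj v w → ¬ (g • v = w ∧ g • w = v))
    (hst : ∀ v : X, C (MulAction.stabilizer G v) ∨ Ser (MulAction.stabilizer N v))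
    (hQ : D (G ⧸ N))
    (hedge : ∀ v w : X, T.Adj v w → ∃ K, Adm C N K ∧
      (MulAction.stabilizer N v ⊓ MulAction.stabilizer N w) ⊓ K = ⊥) : D G := by
  refine over_of_inf N hF.base hD (fun g hg => ?_) hQ
  refine tree_core (V := ↥(N ⊔ Subgroup.zpowers g)) hF.base hT (fun x v w h => hadj (x : G) v w h)
    (fun x v w h => hinv (x : G) v w h) (fun v => stab_cyc N hF hsol v (hst v) g)
    (N.subgroupOf (N ⊔ Subgroup.zpowers g))
    (Q27.TE.cyc_quot hF.base.base _ _ (gen_top N g)) ?_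
  intro F hFin hFT
  obtain ⟨K, hK, hKF⟩ := Adm.fin (C := C) (N := N) hFin (fun (e : X × X) K =>
    (MulAction.stabilizer N e.1 ⊓ MulAction.stabilizer N e.2) ⊓ K = ⊥) (by
      intro e K K' hle h
      exact le_bot_iff.1 ((inf_le_inf_left _ hle).trans h.le)) (fun e he => hedge _ _ (hFT e he))
  obtain ⟨P, _, π, hP, hπ⟩ := det_of_adm N hF.base hsol hQQ hK g hg
  refine ⟨P, inferInstance, π, hP, ?_⟩
  intro e he x hx h1 h2 h3
  have h4 : (⟨x, hx⟩ : N) ∈ (MulAction.stabilizer N e.1 ⊓ MulAction.stabilizer N e.2) ⊓ K :=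
    ⟨⟨h1, h2⟩, hπ x hx h3⟩
  rw [hKF e he, Subgroup.mem_bot] at h4
  exact Subtype.ext (congrArg (fun z : N => (z : G)) h4)

/-- **Trees, part two**: edge stabilizers which meet an admissible kernel in a finite group -/
theorem main_two (hA : ClosedA C) (hD : ClosedOver C D)
    (hsol : ∀ (G : Type) [Group G], Group.IsSolvable G → C G) (hQQ : ∀ m : ℕ, C (GL (Fin m) ℚ))
    (hT : T.IsTree) (hadj : ∀ (g : G) (v w : X), T.Adj v w → T.Adj (g • v) (g • w))
    (hinv : ∀ (g : G) (v w : X), T.Adj v w → ¬ (g • v = w ∧ g • w = v))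
    (hst : ∀ (g : G) (v : X), C (MulAction.stabilizer ↥(N ⊔ Subgroup.zpowers g) v))
    (hQ : D (G ⧸ N))
    (hedge : ∀ v w : X, T.Adj v w → ∃ K, Adm C N K ∧
      Finite ↥((MulAction.stabilizer N v ⊓ MulAction.stabilizer N w) ⊓ K)) : D G := by
  refine over_of_inf N hA.base hD (fun g hg => ?_) hQ
  refine tree_core_fin (V := ↥(N ⊔ Subgroup.zpowers g)) hA hT
    (fun x v w h => hadj (x : G) v w h) (fun x v w h => hinv (x : G) v w h) (fun v => hst g v)
    (N.subgroupOf (N ⊔ Subgroup.zpowers g))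
    (Q27.TE.cyc_quot hA.base.base _ _ (gen_top N g)) ?_
  intro F hFin hFT
  obtain ⟨K, hK, hKF⟩ := Adm.fin (C := C) (N := N) hFin (fun (e : X × X) K =>
    Finite ↥((MulAction.stabilizer N e.1 ⊓ MulAction.stabilizer N e.2) ⊓ K)) (by
      intro e K K' hle h
      exact Finite.of_injective _ (Subgroup.inclusion_injective (inf_le_inf_left _ hle)))
    (fun e he => hedge _ _ (hFT e he))
  obtain ⟨P, _, π, hP, hπ⟩ := det_of_adm N hA.base hsol hQQ hK g hg
  refine ⟨P, inferInstance, π, hP, ?_⟩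
  intro e he
  have h1 := hKF e he
  refine Set.Finite.of_finite_image (f := fun x : ↥(N ⊔ Subgroup.zpowers g) => (x : G))
    (Set.Finite.subset (s := (fun x : ↥((MulAction.stabilizer N e.1 ⊓
      MulAction.stabilizer N e.2) ⊓ K) => ((x : N) : G)) '' Set.univ)
      (Set.Finite.image _ (Set.finite_univ)) ?_) ?_
  · rintro _ ⟨x, ⟨hx, h1, h2, h3⟩, rfl⟩
    exact ⟨⟨⟨x, hx⟩, ⟨⟨h1, h2⟩, hπ x hx h3⟩⟩, trivial, rfl⟩
  · intro x _ y _ hxy
    exact Subtype.ext hxy

end

end Q27.TNS
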