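import Pool.Agent.Q27.TNS.Adm

/-!
# Small groups
-/

set_option autoImplicit false

namespace Q27.TNS

open Matrix
open Pool.Agent.Y110.FJ (ClosedE)
open Q30.FJ (ClosedOver ClosedF)
open Q182.Cyl (ClosedA)
open Q27.HKN (Ser)

variable {C D : ∀ (G : Type) [Group G], Prop}

/-- The smallest set of subgroups which contains the finite ones, and all `E` which contain an
element `x` of infinite order such that all subgroups of `E` which contain no nontrivial power of
`x` are small. -/
inductive Small {N : Type} [Group N] : Subgroup N → Prop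
  | fin (E : Subgroup N) : Finite E → Small E
  | step (E : Subgroup N) (x : N) : x ∈ E → (∀ n : ℤ, x ^ n = 1 → n = 0) →
      (∀ S : Subgroup N, S ≤ E → (∀ n : ℤ, x ^ n ∈ S → n = 0) → Small S) → Small E

theorem small_rat {N : Type} [Group N] (S E : Subgroup N) (hS : Finite S)
    (f : E →* Multiplicative ℚ) (hf : ∀ x, f x = 1 → (x : N) ∈ S) : Small E := by
  by_cases hall : ∀ x, f x = 1
  · exact Small.fin E (Finite.of_injective (Subgroup.inclusion fun x hx => hf ⟨x, hx⟩ (hall _))
      (Subgroup.inclusion_injective _))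
  · push Not at hall
    obtain ⟨x, hx⟩ := hall
    have hx0 : Multiplicative.toAdd (f x) ≠ 0 := fun h => hx (Multiplicative.toAdd.injective h)
    have hinf : ∀ n : ℤ, x ^ n = 1 → n = 0 := by
      intro n hn
      have h1 := congrArg (fun z => Multiplicative.toAdd (f z)) hn
      simp only [map_zpow, map_one, toAdd_zpow, toAdd_one, smul_eq_mul, zsmul_eq_mul] at h1
      rcases mul_eq_zero.1 h1 with h | h
      · exact_mod_cast h
      · exact absurd h hx0
    refine Small.step E x x.2 (fun n hn => hinf n (Subtype.ext hn)) ?_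
    intro T hTE hT
    have hTS : T ≤ S := by
      intro y hy
      by_contra hyS
      have hy1 : f ⟨y, hTE hy⟩ ≠ 1 := fun h => hyS (hf _ h)
      have hy0 : Multiplicative.toAdd (f ⟨y, hTE hy⟩) ≠ 0 :=
        fun h => hy1 (Multiplicative.toAdd.injective h)
      obtain ⟨m, n, hm, hmn⟩ : ∃ m n : ℤ, m ≠ 0 ∧
          m * Multiplicative.toAdd (f x) = n * Multiplicative.toAdd (f ⟨y, hTE hy⟩) := by
        refine ⟨(Multiplicative.toAdd (f ⟨y, hTE hy⟩) / Multiplicative.toAdd (f x)).num,
          (Multiplicative.toAdd (f ⟨y, hTE hy⟩) / Multiplicative.toAdd (f x)).den, ?_, ?_⟩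
        · rw [Rat.num_ne_zero]
          exact div_ne_zero hy0 hx0
        · have h1 := Rat.num_div_den
            (Multiplicative.toAdd (f ⟨y, hTE hy⟩) / Multiplicative.toAdd (f x))
          have h2 : ((Multiplicative.toAdd (f ⟨y, hTE hy⟩) /
              Multiplicative.toAdd (f x)).den : ℚ) ≠ 0 := by
            exact_mod_cast Rat.den_nz _
          rw [div_eq_iff h2] at h1
          rw [h1]
          field_simp
          push_cast
          ring
      -- powers
      have hz : ∀ j : ℕ, ((x ^ (m * j) * (⟨y, hTE hy⟩ : E) ^ (-(n * j)) : E) : N) ∈ S := by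
        intro j
        apply hf
        apply Multiplicative.toAdd.injective
        simp only [map_mul, map_zpow, toAdd_mul, toAdd_zpow, toAdd_one, zsmul_eq_mul]
        push_cast
        linear_combination (j : ℚ) * hmn
      obtain ⟨i, j, hij, he⟩ := Finite.exists_ne_map_eq_of_infinite (fun j : ℕ => (⟨_, hz j⟩ : S))
      have he' : (x ^ (m * i) * (⟨y, hTE hy⟩ : E) ^ (-(n * i)) : E) =
          x ^ (m * j) * (⟨y, hTE hy⟩ : E) ^ (-(n * j)) :=
        Subtype.ext (congrArg (fun z : S => (z : N)) he)
      have h3 : x ^ (m * i - m * j) = (⟨y, hTE hy⟩ : E) ^ (n * i - n * j) := by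
        have h4 : x ^ (m * i - m * j) = x ^ (-(m * j)) * (x ^ (m * i) *
            (⟨y, hTE hy⟩ : E) ^ (-(n * i))) * (⟨y, hTE hy⟩ : E) ^ (n * i) := by
          group
        rw [h4, he']
        group
      have h5 : (x : N) ^ (m * i - m * j) ∈ T := by
        have h6 : (x : N) ^ (m * i - m * j) = y ^ (n * i - n * j) := congrArg Subtype.val h3
        rw [h6]
        exact zpow_mem hy _
      have h7 := hT _ h5
      rw [← mul_sub] at h7
      rcases mul_eq_zero.1 h7 with h8 | h8
      · exact hm h8
      · exact hij (by omega)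
    exact Small.fin T (Finite.of_injective (Subgroup.inclusion hTS)
      (Subgroup.inclusion_injective _))

/-- the class of small groups is closed under overgroups of finite index and extensions by subgroups
of the additive group of rational numbers -/
theorem Small.over {N : Type} [Group N] {S : Subgroup N} (h : Small S) :
    ∀ E : Subgroup N, S ≤ E → (S.relIndex E ≠ 0 ∨
      ∃ f : E →* Multiplicative ℚ, ∀ x, f x = 1 → (x : N) ∈ S) → Small E := by
  induction h with
  | fin S hS =>
    intro E hSE hE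
    rcases hE with hE | ⟨f, hf⟩
    · have h1 : Finite (S.subgroupOf E) :=
        Finite.of_injective _ (Subgroup.subgroupOfEquivOfLe hSE).injective
      have h2 : (S.subgroupOf E).FiniteIndex := ⟨hE⟩
      have h3 : Finite E := by
        have h4 := Subgroup.finite_quotient_of_finiteIndex (H := S.subgroupOf E)
        exact Finite.of_equiv _ (Subgroup.groupEquivQuotientProdSubgroup (s := S.subgroupOf E)).symm
      exact Small.fin E h3
    · exact small_rat S E hS f hf
  | step S x hx hinf _ ih =>
    intro E hSE hE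
    refine Small.step E x (hSE hx) hinf ?_
    intro T hTE hT
    refine ih (T ⊓ S) inf_le_right (fun n hn => hT n hn.1) T inf_le_left ?_
    rcases hE with hE | ⟨f, hf⟩
    · left
      rw [Subgroup.inf_relIndex_left]
      exact fun h0 => hE (Subgroup.relIndex_eq_zero_of_le_right hTE h0)
    · right
      exact ⟨f.comp (Subgroup.inclusion hTE), fun y hy => ⟨y.2, hf _ hy⟩⟩

section

variable {G : Type} [Group G] {N : Subgroup G}

theorem small_det (hsep : ∀ x : N, x ≠ 1 → ∃ K, Adm C N K ∧ ∀ n : ℤ, x ^ n ∈ K → x ^ n = 1)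
    {E : Subgroup N} (h : Small E) : ∃ K, Adm C N K ∧ E ⊓ K = ⊥ := by
  induction h with
  | fin E hE =>
    obtain ⟨K, hK, h1⟩ := Adm.fin (C := C) (N := N) (F := {x : N | x ∈ E ∧ x ≠ 1})
      (Set.Finite.subset (Set.toFinite (E : Set N)) (fun x hx => hx.1))
      (fun x K => x ∉ K) (fun x K K' hle hx hx' => hx (hle hx')) (by
        rintro x ⟨_, hx⟩
        obtain ⟨K, hK, h2⟩ := hsep x hx
        refine ⟨K, hK, fun h3 => hx ?_⟩
        have h4 := h2 1
        rw [zpow_one] at h4
        exact h4 h3)
    refine ⟨K, hK, ?_⟩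
    rw [eq_bot_iff]
    intro x hx
    by_contra h0
    exact h1 x ⟨hx.1, h0⟩ hx.2
  | step E x hx hinf _ ih =>
    have hx1 : x ≠ 1 := by
      rintro rfl
      have h1 := hinf 1 (_root_.one_zpow 1)
      exact absurd h1 one_ne_zero
    obtain ⟨K, hK, h2⟩ := hsep x hx1
    obtain ⟨K', hK', h3⟩ := ih (E ⊓ K) inf_le_left (fun n hn => hinf n (h2 n hn.2))
    exact ⟨K ⊓ K', Adm.inf _ _ hK hK', by rw [← inf_assoc, h3]⟩

theorem small_det_fin (hsep : ∀ x : N, (∀ n : ℤ, x ^ n = 1 → n = 0) →
      ∃ K, Adm C N K ∧ ∀ n : ℤ, x ^ n ∈ K → n = 0)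
    {E : Subgroup N} (h : Small E) : ∃ K, Adm C N K ∧ Finite ↥(E ⊓ K) := by
  induction h with
  | fin E hE =>
    exact ⟨⊤, Adm.top N, Finite.of_injective _ (Subgroup.inclusion_injective inf_le_left)⟩
  | step E x hx hinf _ ih =>
    obtain ⟨K, hK, h2⟩ := hsep x hinf
    obtain ⟨K', hK', h3⟩ := ih (E ⊓ K) inf_le_left (fun n hn => h2 n hn.2)
    exact ⟨K ⊓ K', Adm.inf _ _ hK hK', by rwa [← inf_assoc]⟩

end

end Q27.TNS
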