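import Pool.Agent.Q27.HKN.Step
import Pool.Agent.Q9.FJG.Sub
import Pool.Agent.Q182.FkMain

/-!
# Groups acting on trees: detection of finitely many edge stabilizers
-/

set_option autoImplicit false

namespace Q27.TNS

open Pool.Agent.Y110.FJ (ClosedE)
open Pool.Agent.Y462.SS (Closed)
open Q30.FJ (ClosedOver ClosedF)
open Q182.Cyl (ClosedA)

variable {C D : ∀ (G : Type) [Group G], Prop}

/-- it is enough to consider the extensions of the kernel by cyclic groups -/
theorem over_of_cyc (hC : ClosedE C) (hD : ClosedOver C D) {G : Type} [Group G] (N : Subgroup G)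
    [N.Normal] (h : ∀ g : G, C ↥(N ⊔ Subgroup.zpowers g)) (hQ : D (G ⧸ N)) : D G := by
  have h1 : Q27.TE.Asc C N := by
    refine Q27.TE.Asc.step ⊥ N Q27.TE.Asc.bot bot_le fun g => ?_
    refine Pool.Agent.Y812.SS.C_equiv hC.base
      ((N ⊔ Subgroup.zpowers g).equivMapOfInjective (QuotientGroup.mk' (⊥ : Subgroup G)) ?_).symm
      (h g)
    rw [injective_iff_map_eq_one]
    intro x hx
    exact Subgroup.mem_bot.1 ((QuotientGroup.eq_one_iff _).1 hx)
  exact h1.over hC hD hQ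

section

variable {V X : Type} [Group V] [MulAction V X] {T : SimpleGraph X}

theorem stab_mem (hC : Closed C) (hst : ∀ v : X, C (MulAction.stabilizer V v)) (W : Subgroup V)
    (p : SubMulAction W X) (v : p) : C (MulAction.stabilizer W v) := by
  refine hC.of_injective _ _ (MonoidHom.mk' (fun x : MulAction.stabilizer W v =>
    (⟨((x : W) : V), congrArg Subtype.val (MulAction.mem_stabilizer_iff.1 x.2)⟩ :
      MulAction.stabilizer V (v : X))) (fun x y => rfl)) ?_ (hst v)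
  intro x y hxy
  exact Subtype.ext (Subtype.ext (congrArg (fun z : MulAction.stabilizer V (v : X) => (z : V)) hxy))

/-- the reduction to finitely many edges -/
theorem red (hT : T.IsTree)
    (hadj : ∀ (g : V) (v w : X), T.Adj v w → T.Adj (g • v) (g • w))
    (hinv : ∀ (g : V) (v w : X), T.Adj v w → ¬ (g • v = w ∧ g • w = v)) (s : Finset V) :
    ∃ (p : SubMulAction ↥(Subgroup.closure (s : Set V)) X) (U : SimpleGraph p) (F : Set (X × X)),
      U.IsTree ∧
      (∀ (g : ↥(Subgroup.closure (s : Set V))) (a b : p), U.Adj a b → U.Adj (g • a) (g • b)) ∧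
      (∀ (g : ↥(Subgroup.closure (s : Set V))) (a b : p), U.Adj a b → ¬ (g • a = b ∧ g • b = a)) ∧
      F.Finite ∧ (∀ e ∈ F, T.Adj e.1 e.2) ∧
      ∀ a b : p, U.Adj a b → ∃ g : ↥(Subgroup.closure (s : Set V)), ∃ e ∈ F,
        (a : X) = (g : V) • e.1 ∧ (b : X) = (g : V) • e.2 := by
  classical
  obtain ⟨s', hs'⟩ : ∃ s' : Finset ↥(Subgroup.closure (s : Set V)),
      Subgroup.closure (s' : Set ↥(Subgroup.closure (s : Set V))) = ⊤ := by
    have h1 : Group.FG ↥(Subgroup.closure (s : Set V)) :=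
      (Group.fg_iff_subgroup_fg _).2 ⟨s, rfl⟩
    exact Group.fg_def.1 h1
  obtain ⟨p, U, hU, hUT, hUadj, ⟨F, hF, hFe⟩, -⟩ := Q9.FJG.exists_subtree
    (G := ↥(Subgroup.closure (s : Set V))) hT (fun g v w h => hadj (g : V) v w h) s' hs'
  refine ⟨p, U, (fun e : p × p => ((e.1 : X), (e.2 : X))) '' {e ∈ F | U.Adj e.1 e.2}, hU, hUadj,
    ?_, ((hF.subset (Set.sep_subset _ _)).image _), ?_, ?_⟩
  · rintro g a b hab ⟨h1, h2⟩
    exact hinv (g : V) a b (hUT a b hab) ⟨congrArg Subtype.val h1, congrArg Subtype.val h2⟩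
  · rintro _ ⟨e, he, rfl⟩
    exact hUT _ _ he.2
  · intro a b hab
    obtain ⟨g, e, he, h1, h2⟩ := hFe a b hab
    refine ⟨g, _, ⟨e, ⟨he, ?_⟩, rfl⟩, congrArg Subtype.val h1, congrArg Subtype.val h2⟩
    have h3 := hUadj g⁻¹ a b hab
    rwa [h1, h2, inv_smul_smul, inv_smul_smul] at h3

/-- **Finitely many edges**: homomorphisms which are injective on finitely many edge stabilizers -/
theorem tree_core (hC : ClosedE C) (hT : T.IsTree)
    (hadj : ∀ (g : V) (v w : X), T.Adj v w → T.Adj (g • v) (g • w))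
    (hinv : ∀ (g : V) (v w : X), T.Adj v w → ¬ (g • v = w ∧ g • w = v))
    (hst : ∀ v : X, C (MulAction.stabilizer V v)) (M : Subgroup V) [M.Normal] (hVM : C (V ⧸ M))
    (hdet : ∀ F : Set (X × X), F.Finite → (∀ e ∈ F, T.Adj e.1 e.2) →
      ∃ (P : Type) (_ : Group P) (π : V →* P), C P ∧
        ∀ e ∈ F, ∀ x ∈ M, x • e.1 = e.1 → x • e.2 = e.2 → π x = 1 → x = 1) : C V := by
  refine Q30.FJ.of_fg hC.base V fun s => ?_
  obtain ⟨p, U, F, hU, hUadj, hUinv, hF, hFT, hFe⟩ := red hT hadj hinv s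
  obtain ⟨P, _, π, hP, hπ⟩ := hdet F hF hFT
  refine Q9.FJT.tree_edge (T := U) ((π.prod (QuotientGroup.mk' M)).comp
    (Subgroup.closure (s : Set V)).subtype) hC (hC.base.prod _ _ hP hVM) hU hUadj hUinv ?_
    (fun v => stab_mem hC.base hst _ p v)
  intro x a b hab hxa hxb hx
  obtain ⟨g, e, he, h1, h2⟩ := hFe a b hab
  have hx1 : π (x : V) = 1 := congrArg Prod.fst hx
  have hx2 : (x : V) ∈ M := (QuotientGroup.eq_one_iff _).1 (congrArg Prod.snd hx)
  have hxa' : (x : V) • (a : X) = a := congrArg Subtype.val hxa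
  have hxb' : (x : V) • (b : X) = b := congrArg Subtype.val hxb
  have h3 : (g : V)⁻¹ * x * g = 1 := by
    refine hπ e he _ ?_ ?_ ?_ ?_
    · have h4 := Subgroup.Normal.conj_mem (inferInstance : M.Normal) _ hx2 (g : V)⁻¹
      rwa [inv_inv] at h4
    · rw [mul_smul, mul_smul, ← h1, hxa', h1, inv_smul_smul]
    · rw [mul_smul, mul_smul, ← h2, hxb', h2, inv_smul_smul]
    · rw [map_mul, map_mul, hx1, mul_one, ← map_mul, inv_mul_cancel, map_one]
  apply Subtype.ext
  show (x : V) = 1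
  have h4 : (x : V) = (g : V) * ((g : V)⁻¹ * x * g) * (g : V)⁻¹ := by group
  rw [h4, h3, mul_one, mul_inv_cancel]

/-- **Finitely many edges**: homomorphisms with finite kernels on finitely many edge stabilizers -/
theorem tree_core_fin (hC : ClosedA C) (hT : T.IsTree)
    (hadj : ∀ (g : V) (v w : X), T.Adj v w → T.Adj (g • v) (g • w))
    (hinv : ∀ (g : V) (v w : X), T.Adj v w → ¬ (g • v = w ∧ g • w = v))
    (hst : ∀ v : X, C (MulAction.stabilizer V v)) (M : Subgroup V) [M.Normal] (hVM : C (V ⧸ M))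
    (hdet : ∀ F : Set (X × X), F.Finite → (∀ e ∈ F, T.Adj e.1 e.2) →
      ∃ (P : Type) (_ : Group P) (π : V →* P), C P ∧
        ∀ e ∈ F, {x : V | x ∈ M ∧ x • e.1 = e.1 ∧ x • e.2 = e.2 ∧ π x = 1}.Finite) : C V := by
  refine Q30.FJ.of_fg hC.base.base V fun s => ?_
  obtain ⟨p, U, F, hU, hUadj, hUinv, hF, hFT, hFe⟩ := red hT hadj hinv s
  obtain ⟨P, _, π, hP, hπ⟩ := hdet F hF hFT
  refine Q182.Fk.main (T := U) hC ((π.prod (QuotientGroup.mk' M)).comp
    (Subgroup.closure (s : Set V)).subtype) (hC.base.base.prod _ _ hP hVM) ⟨hU, hUadj, hUinv⟩ ?_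
    (fun v => stab_mem hC.base.base hst _ p v)
  intro a b hab
  obtain ⟨g, e, he, h1, h2⟩ := hFe a b hab
  refine Set.Finite.of_finite_image (f := fun x : ↥(Subgroup.closure (s : Set V)) =>
    (g : V)⁻¹ * x * g) ((hπ e he).subset ?_) ?_
  · rintro _ ⟨x, ⟨hxa, hxb, hx⟩, rfl⟩
    have hx1 : π (x : V) = 1 := congrArg Prod.fst hx
    have hx2 : (x : V) ∈ M := (QuotientGroup.eq_one_iff _).1 (congrArg Prod.snd hx)
    have hxa' : (x : V) • (a : X) = a := congrArg Subtype.val hxa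
    have hxb' : (x : V) • (b : X) = b := congrArg Subtype.val hxb
    refine ⟨?_, ?_, ?_, ?_⟩
    · have h4 := Subgroup.Normal.conj_mem (inferInstance : M.Normal) _ hx2 (g : V)⁻¹
      rwa [inv_inv] at h4
    · show ((g : V)⁻¹ * x * g) • e.1 = e.1
      rw [mul_smul, mul_smul, ← h1, hxa', h1, inv_smul_smul]
    · show ((g : V)⁻¹ * x * g) • e.2 = e.2
      rw [mul_smul, mul_smul, ← h2, hxb', h2, inv_smul_smul]
    · rw [map_mul, map_mul, hx1, mul_one, ← map_mul, inv_mul_cancel, map_one]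
  · intro x _ y _ hxy
    apply Subtype.ext
    have h3 : (g : V)⁻¹ * x * g = (g : V)⁻¹ * y * g := hxy
    exact mul_left_cancel (mul_right_cancel h3)

end

end Q27.TNS
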